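import Pool.Agent.Results.MP_606be1_nt.ComplexFormula
import Pool.Agent.Lib.MP_606be1_nt.FM.Impl

/-! For real bases the best approximations are the convergents, so the complex formula gives the
formula with convergents (our former hand-in `Formula`). -/

namespace Pool.Agent.Lib.MP_606be1_nt.CX

open Real Set Filter Asymptotics TH

lemma eq_of_le {ξ : ℝ} (h : Irrational ξ) (j : ℕ) {n m : ℤ} (h0 : 0 < n) (h1 : n < Q ξ (j + 1))
    (h2 : |n * ξ - m| ≤ E ξ j) : n = Q ξ j ∧ m = P ξ j := by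
  obtain ⟨u, v, hn, hm⟩ := exists_comb ξ j n m
  have q0 := one_le_Q h j
  have q1 := one_le_Q h (j + 1)
  have e0 := E_pos j ξ h
  have e1 := E_pos (j + 1) ξ h
  have key : |n * ξ - m| = |u * E ξ j - v * E ξ (j + 1)| := by
    have : u * E ξ j - v * E ξ (j + 1) = (-1) ^ j * (n * ξ - m) := by
      unfold E
      rw [hn, hm, pow_succ]
      push_cast
      ring
    rw [this, abs_mul, abs_pow, abs_neg, abs_one, one_pow, one_mul]
  rw [key] at h2
  obtain ⟨h3, h4⟩ := abs_le.1 h2
  rcases le_or_gt v 0 with hv | hv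
  · have hu : 0 < u := by
      by_contra hu
      have : v * Q ξ (j + 1) ≤ 0 := mul_nonpos_of_nonpos_of_nonneg hv (by omega)
      have : u * Q ξ j ≤ 0 := mul_nonpos_of_nonpos_of_nonneg (by omega) (by omega)
      omega
    have hu' : (1 : ℝ) ≤ u := by exact_mod_cast hu
    have hv' : (v : ℝ) ≤ 0 := by exact_mod_cast hv
    have a1 : (u : ℝ) ≤ 1 := by nlinarith
    have a2 : (0 : ℝ) ≤ v := by nlinarith
    obtain rfl : u = 1 := le_antisymm (by exact_mod_cast a1) hu
    obtain rfl : v = 0 := le_antisymm hv (by exact_mod_cast a2)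
    exact ⟨by simpa using hn, by simpa using hm⟩
  · exfalso
    have hu : u < 0 := by
      by_contra hu
      have : Q ξ (j + 1) ≤ v * Q ξ (j + 1) := by nlinarith
      have : 0 ≤ u * Q ξ j := mul_nonneg (by omega) (by omega)
      omega
    have hu' : (u : ℝ) ≤ -1 := by exact_mod_cast (by omega : u ≤ -1)
    have hv' : (0 : ℝ) < v := by exact_mod_cast hv
    nlinarith

lemma mem_Tc (α β x : ℝ) (p : ℕ × ℕ) : p ∈ Tc (α : ℂ) (β : ℂ) x ↔ p ∈ T α β x := by
  change ‖(α : ℂ) ^ p.1 - (β : ℂ) ^ p.2‖ ≤ x ↔ |α ^ p.1 - β ^ p.2| ≤ x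
  rw [← Real.norm_eq_abs, ← Complex.norm_real]
  push_cast
  rfl

section
variable {α β : ℝ} (hα : 1 < α) (hβ : 1 < β)
include hα hβ

lemma val_real (n m : ℕ) : val α β n m = log β * |n * (log α / log β) - m| := by
  have e : (α : ℂ) ^ n / (β : ℂ) ^ m = ((α ^ n / β ^ m : ℝ) : ℂ) := by push_cast; rfl
  rw [val, e, ← Complex.ofReal_log (by positivity), Complex.norm_real, Real.norm_eq_abs,
    log_div (by positivity) (by positivity), log_pow, log_pow, lin_eq hβ]

lemma val_conv (hi : Irrational (log α / log β)) (j : ℕ) :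
    val α β (q α β j) (pp α β j) = log β * E (log α / log β) j := by
  rw [val_real hα hβ, q_cast' hi, pp_cast' hα hβ hi, abs_err hi]

/-- every convergent of positive index is a best approximation -/
lemma conv_rec (hi : Irrational (log α / log β)) (j : ℕ) :
    (q α β (j + 1), pp α β (j + 1)) ∈ Rec α β := by
  have hq := q_cast hi (j + 1)
  refine ⟨by have := one_le_Q hi (j + 1); simp only; omega, fun n m h1 h2 => ?_⟩
  have h3 : Q (log α / log β) (j + 1) < Q (log α / log β) (j + 1 + 1) := Q_succ_gt hi j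
  have h4 := (best hi (j + 1) (n := n) (m := m) (by omega) (by simp only at h2; omega)).1
  rw [val_conv hα hβ hi, val_real hα hβ]
  exact mul_le_mul_of_nonneg_left (by exact_mod_cast h4) (log_pos hβ).le

/-- every best approximation is a convergent -/
lemma rec_conv (hi : Irrational (log α / log β)) {p : ℕ × ℕ} (hp : p ∈ Rec α β) :
    ∃ j, (q α β j, pp α β j) = p := by
  obtain ⟨j, h1, h2⟩ := exists_index hi (n := p.1) (by have := hp.1; omega)
  have hq := q_cast hi j
  have hq' := pp_cast hα hβ hi j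
  have h3 := hp.2 (q α β j) (pp α β j) (by have := one_le_Q hi j; omega) (by omega)
  rw [val_conv hα hβ hi, val_real hα hβ] at h3
  have h4 := eq_of_le hi j (n := p.1) (m := p.2) (by have := hp.1; omega) h2
    (by exact_mod_cast le_of_mul_le_mul_left h3 (log_pos hβ))
  exact ⟨j, Prod.ext (by simp only; omega) (by simp only; omega)⟩

lemma K_le_D (hi : Irrational (log α / log β)) (x : ℝ) :
    (Tc α β x ∩ Rec α β).encard ≤ (FM.D α β x).encard := by
  refine le_trans (encard_le_encard fun p hp => ?_)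
    (encard_image_le (fun j => (q α β j, pp α β j)) _)
  obtain ⟨j, rfl⟩ := rec_conv hα hβ hi hp.2
  exact ⟨j, (FM.mem_D hα hβ hi).2 ((mem_Tc _ _ _ _).1 hp.1), rfl⟩

lemma D_le_K (hi : Irrational (log α / log β)) (x : ℝ) :
    (FM.D α β x).encard ≤ (Tc α β x ∩ Rec α β).encard + 1 := by
  have h1 : FM.D α β x ⊆ insert 0 (FM.D α β x ∩ Ici 1) := fun j hj =>
    (Nat.eq_zero_or_pos j).imp id fun h => ⟨hj, h⟩
  refine (encard_le_encard h1).trans ((encard_insert_le _ _).trans (add_le_add ?_ le_rfl))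
  refine encard_le_encard_of_injOn (f := fun j => (q α β j, pp α β j)) (fun j hj => ?_)
    fun i hi' j hj hij => q_injOn hi hi'.2 hj.2 (congrArg Prod.fst hij)
  obtain ⟨k, rfl⟩ : ∃ k, j = k + 1 := ⟨j - 1, by have : 1 ≤ j := hj.2; omega⟩
  exact ⟨(mem_Tc _ _ _ _).2 ((FM.mem_D hα hβ hi).1 hj.1), conv_rec hα hβ hi k⟩

end

/-- the statement of our former hand-in `Formula`, from the complex formula -/
theorem realFormula (α β : ℝ) (hα : 1 < α) (hβ : 1 < β) :
    ∃ C : ℝ, ∀ᶠ x : ℝ in Filter.atTop, ∃ k : ℕ,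
      {p : ℕ × ℕ | |α ^ p.1 - β ^ p.2| ≤ x}.encard =
        {j : ℕ | |α ^ ((Real.log α / Real.log β).convergent j).den -
          β ^ ((Real.log α / Real.log β).convergent j).num| ≤ x}.encard + k ∧
      |(k : ℝ) - Real.log x ^ 2 / (Real.log α * Real.log β)| ≤ C * Real.log x := by
  have na : ‖(α : ℂ)‖ = α := by rw [Complex.norm_real, Real.norm_of_nonneg (by linarith)]
  have nb : ‖(β : ℂ)‖ = β := by rw [Complex.norm_real, Real.norm_of_nonneg (by linarith)]
  obtain ⟨C, hC⟩ := Pool.Agent.Results.MP_606be1_nt.ComplexFormula.result α β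
    (by rwa [na]) (by rwa [nb])
  rw [na, nb] at hC
  have hab : 0 < log α * log β := mul_pos (log_pos hα) (log_pos hβ)
  refine ⟨C + 1, ?_⟩
  filter_upwards [hC, eventually_ge_atTop 0, tendsto_log_atTop.eventually_ge_atTop 1,
    tendsto_log_atTop.eventually_ge_atTop ((C + 1) * (log α * log β))] with x hx x0 h1 h2
  obtain ⟨k, k1, k2⟩ := hx
  change (Tc α β x).encard = (Tc α β x ∩ Rec α β).encard + k at k1
  change ∃ k : ℕ, (T α β x).encard = (FM.D α β x).encard + k ∧ _
  have hT : Tc α β x = T α β x := Set.ext (mem_Tc α β x)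
  have same : |(k : ℝ) - log x ^ 2 / (log α * log β)| ≤ (C + 1) * log x := by linarith
  by_cases hi : Irrational (log α / log β)
  swap
  · exact ⟨k, by rw [(T_infinite_of_rat hα hβ hi x0).encard_eq,
      (FM.D_infinite_of_rat hα hβ hi x0).encard_eq, top_add], same⟩
  rw [← hT, k1]
  rcases (K_le_D hα hβ hi x).eq_or_lt with h | h
  · exact ⟨k, by rw [h], same⟩
  have h3 := le_antisymm (D_le_K hα hβ hi x) (Order.add_one_le_of_lt h)
  have h4 : (C + 1) * log x ≤ log x ^ 2 / (log α * log β) := by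
    rw [le_div_iff₀ hab]
    nlinarith
  obtain ⟨k3, k4⟩ := abs_le.1 k2
  have h5 : 1 ≤ k := by
    have : (1 : ℝ) ≤ k := by linarith
    exact_mod_cast this
  obtain ⟨i, rfl⟩ : ∃ i, k = 1 + i := Nat.exists_eq_add_of_le h5
  refine ⟨i, by rw [h3]; push_cast; rw [add_assoc], ?_⟩
  push_cast at k3 k4
  exact abs_le.2 ⟨by linarith, by linarith⟩

/-- the criterion for complex bases -/
theorem iffC {α β : ℂ} (hα : 1 < ‖α‖) (hβ : 1 < ‖β‖) :
    IsEquivalent atTop (fun x : ℝ => ((Tc α β x).ncard : ℝ))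
      (fun x => log x ^ 2 / (log ‖α‖ * log ‖β‖)) ↔
    (∀ x, (Tc α β x ∩ Rec α β).Finite) ∧
      (fun x => ((Tc α β x ∩ Rec α β).ncard : ℝ)) =o[atTop] fun x => log x ^ 2 := by
  obtain ⟨C, hC⟩ := Pool.Agent.Results.MP_606be1_nt.ComplexFormula.result α β hα hβ
  change ∀ᶠ x in atTop, ∃ k : ℕ, (Tc α β x).encard = (Tc α β x ∩ Rec α β).encard + k ∧ _ at hC
  have ha := log_pos hα
  have hb := log_pos hβ
  have hO : (fun x : ℝ => log x ^ 2 / (log ‖α‖ * log ‖β‖)) =O[atTop] fun x => log x ^ 2 := by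
    simpa [div_eq_inv_mul] using
      (isBigO_refl (fun x : ℝ => log x ^ 2) atTop).const_mul_left (log ‖α‖ * log ‖β‖)⁻¹
  have hO' : (fun x : ℝ => log x ^ 2) =O[atTop] fun x => log x ^ 2 / (log ‖α‖ * log ‖β‖) := by
    simpa [div_eq_inv_mul] using
      (isBigO_refl (fun x : ℝ => log x ^ 2) atTop).const_mul_right
        (c := (log ‖α‖ * log ‖β‖)⁻¹) (by positivity)
  have key : (∀ x, (Tc α β x ∩ Rec α β).Finite) → (fun x => ((Tc α β x).ncard : ℝ) -
      (Tc α β x ∩ Rec α β).ncard - log x ^ 2 / (log ‖α‖ * log ‖β‖)) =o[atTop]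
        fun x => log x ^ 2 := fun h => by
    refine IsBigO.trans_isLittleO (IsBigO.of_bound 1 ?_) (lin_isLittleO C 0)
    filter_upwards [hC] with x ⟨k, h1, h2⟩
    rw [← (h x).cast_ncard_eq] at h1
    have hT : (Tc α β x).Finite := finite_of_encard_eq_coe (h1.trans (Nat.cast_add _ _).symm)
    rw [← hT.cast_ncard_eq] at h1
    have h3 : (Tc α β x).ncard = (Tc α β x ∩ Rec α β).ncard + k := by exact_mod_cast h1
    rw [one_mul, Real.norm_eq_abs, Real.norm_eq_abs, add_zero, h3]
    refine le_trans ?_ (h2.trans (le_abs_self _))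
    simp
  constructor
  · intro h
    have h1 : ∀ᶠ y : ℝ in atTop, 0 < log y ^ 2 / (log ‖α‖ * log ‖β‖) := by
      filter_upwards [eventually_gt_atTop 1] with y hy
      have := log_pos hy
      positivity
    have hK : ∀ x, (Tc α β x ∩ Rec α β).Finite := fun x => by
      obtain ⟨y, hy1, hy2⟩ := ((h.eventually_pos h1).and (eventually_ge_atTop x)).exists
      have hT : (Tc α β y).Finite := finite_of_ncard_pos (by exact_mod_cast hy1)
      exact hT.subset fun p hp => le_trans hp.1 hy2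
    refine ⟨hK, ((h.isLittleO.trans_isBigO hO).sub (key hK)).congr_left fun x => ?_⟩
    simp only [Pi.sub_apply]
    ring
  · rintro ⟨hD, hD'⟩
    refine IsLittleO.trans_isBigO ?_ hO'
    refine ((key hD).add hD').congr_left fun x => ?_
    simp only [Pi.sub_apply]
    ring

/-- Q1 in terms of the convergents of `log π` -/
theorem piE :
    IsEquivalent atTop (fun x : ℝ => (({p : ℕ × ℕ | |π ^ p.1 - exp 1 ^ p.2| ≤ x}.ncard : ℕ) : ℝ))
      (fun x => log x ^ 2 / log π) ↔
    (∀ x : ℝ, {j : ℕ | |π ^ ((log π).convergent j).den -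
      exp 1 ^ ((log π).convergent j).num| ≤ x}.Finite) ∧
    (fun x : ℝ => (({j : ℕ | |π ^ ((log π).convergent j).den -
      exp 1 ^ ((log π).convergent j).num| ≤ x}.ncard : ℕ) : ℝ)) =o[atTop] fun x => log x ^ 2 := by
  have h1 : 1 < π := by linarith [pi_gt_three]
  have h2 : 1 < exp 1 := one_lt_exp_iff.2 one_pos
  have h := FM.iff_of_formula h1 h2 (FM.two_of_one (realFormula π (exp 1) h1 h2))
  simpa only [T, FM.D, log_exp, mul_one, div_one] using h

end Pool.Agent.Lib.MP_606be1_nt.CX
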