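import Pool.Agent.Lib.MP_606be1_nt.TH.CxUp

/-! Complex bases: the count up to `O(log x)` is the main term plus the number of best
approximations that are solutions. -/

namespace Pool.Agent.Lib.MP_606be1_nt.CX

open Real Set Filter TH

/-- size of the principal logarithm of `α^n / β^m` -/
noncomputable def val (α β : ℂ) (n m : ℕ) : ℝ := ‖Complex.log (α ^ n / β ^ m)‖

/-- best approximations -/
def Rec (α β : ℂ) : Set (ℕ × ℕ) :=
  {p | 1 ≤ p.1 ∧ ∀ n m : ℕ, 1 ≤ n → n ≤ p.1 → val α β p.1 p.2 ≤ val α β n m}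

lemma dist_le' {μ u v : ℂ} (h : ‖μ‖ ≤ 1) (e : Complex.exp μ * v = u) :
    ‖u - v‖ ≤ 2 * ‖μ‖ * ‖u‖ := by
  have e1 : u - v = -((Complex.exp (-μ) - 1) * u) := by
    rw [← e, Complex.exp_neg]
    field_simp
    ring
  have e2 := Complex.norm_exp_sub_one_le (x := -μ) (by rwa [norm_neg])
  rw [norm_neg] at e2
  rw [e1, norm_neg, norm_mul]
  gcongr

lemma strip {a b V : ℝ} (hb : 0 < b) (hV : 0 ≤ V) (N : ℕ) {U : Set (ℕ × ℕ)}
    (hU : ∀ p ∈ U, p.1 < N ∧ |p.1 * a - p.2 * b| ≤ V) :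
    U.Finite ∧ (U.ncard : ℝ) ≤ N * (2 * V / b + 1) := by
  classical
  set K := ⌊2 * V / b⌋₊ + 1 with hK
  set g : ℕ × ℕ → ℕ × ℕ := fun p => (p.1, ⌈(p.1 * a - V) / b⌉₊ + p.2) with hg
  have hsub : U ⊆ (((Finset.range N ×ˢ Finset.range K).image g : Finset (ℕ × ℕ)) :
      Set (ℕ × ℕ)) := by
    rintro ⟨n, m⟩ h0
    obtain ⟨h1, h2⟩ := hU _ h0
    obtain ⟨h3, h4⟩ := abs_le.1 h2
    simp only at h1 h3 h4
    have h5 : ⌈(n * a - V) / b⌉₊ ≤ m := Nat.ceil_le.2 (by rw [div_le_iff₀ hb]; linarith)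
    simp only [Finset.coe_product, Finset.coe_range, Finset.coe_image, mem_prod, mem_Iio,
      mem_image]
    refine ⟨(n, m - ⌈(n * a - V) / b⌉₊), ⟨h1, ?_⟩, ?_⟩
    · refine Nat.lt_succ_of_le (Nat.le_floor ?_)
      have h6 := Nat.le_ceil ((n * a - V) / b)
      rw [div_le_iff₀ hb] at h6
      rw [Nat.cast_sub h5, le_div_iff₀ hb]
      linarith
    · simp only [hg, Prod.mk.injEq, true_and]
      omega
  refine ⟨(Finset.finite_toSet _).subset hsub, ?_⟩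
  have h1 := ncard_le_ncard hsub (Finset.finite_toSet _)
  rw [ncard_coe_finset] at h1
  have h2 : U.ncard ≤ N * K := h1.trans (Finset.card_image_le.trans (by simp))
  have h3 : (K : ℝ) ≤ 2 * V / b + 1 := by
    rw [hK]; push_cast; linarith [Nat.floor_le (show 0 ≤ 2 * V / b by positivity)]
  have h4 : (U.ncard : ℝ) ≤ N * K := by exact_mod_cast h2
  exact h4.trans (by gcongr)

section
variable {α β : ℂ} (hα : 1 < ‖α‖) (hβ : 1 < ‖β‖)
include hα hβ

lemma exp_log (n m : ℕ) : Complex.exp (Complex.log (α ^ n / β ^ m)) * β ^ m = α ^ n := by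
  have a0 : α ^ n ≠ 0 := pow_ne_zero _ (norm_pos_iff.1 (by linarith))
  have b0 : β ^ m ≠ 0 := pow_ne_zero _ (norm_pos_iff.1 (by linarith))
  rw [Complex.exp_log (div_ne_zero a0 b0), div_mul_cancel₀ _ b0]

lemma re_log (n m : ℕ) : (Complex.log (α ^ n / β ^ m)).re = n * log ‖α‖ - m * log ‖β‖ := by
  rw [Complex.log_re, norm_div, norm_pow, norm_pow, log_div (by positivity) (by positivity),
    log_pow, log_pow]

lemma re_val (n m : ℕ) : |n * log ‖α‖ - m * log ‖β‖| ≤ val α β n m := by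
  rw [← re_log hα hβ]
  exact Complex.abs_re_le_norm _

lemma val_le {x : ℝ} {n m : ℕ} (h : (n, m) ∈ Tc α β x) (hn : 2 * x ≤ ‖α‖ ^ n) :
    val α β n m * ‖α‖ ^ n ≤ 2 * x := by
  obtain ⟨l, l1, l2⟩ := ex_lam hα hβ h hn
  have a0 : α ^ n ≠ 0 := pow_ne_zero _ (norm_pos_iff.1 (by linarith))
  have p0 : 0 < ‖α‖ ^ n := by positivity
  have e1 : ‖l‖ ≤ 1 := le_of_mul_le_mul_right (by linarith) p0
  have e2 : α ^ n / β ^ m = Complex.exp (-l) := by
    rw [← l1, Complex.exp_neg]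
    field_simp
  have e3 := abs_le.1 ((Complex.abs_im_le_norm l).trans e1)
  rw [val, e2, Complex.log_exp (by simp; linarith [pi_gt_three])
    (by simp; linarith [pi_gt_three]), norm_neg]
  exact l2

lemma dist_val {n m : ℕ} (h : val α β n m ≤ 1) :
    ‖α ^ n - β ^ m‖ ≤ 2 * val α β n m * ‖α‖ ^ n := by
  have := dist_le' h (exp_log hα hβ n m)
  rwa [norm_pow] at this

/-- a solution outside the box that is no best approximation has a small exponent -/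
lemma small_of_not_rec {δ x : ℝ} (h0 : 0 < δ) (hδ : ∀ n m : ℕ, 1 ≤ n → δ ≤ ‖α ^ n - β ^ m‖) {n m : ℕ}
    (h : (n, m) ∈ Tc α β x) (h1 : 1 ≤ n) (hr : (n, m) ∉ Rec α β)
    (hn : 4 * x < min (log ‖β‖) 1 * ‖α‖ ^ n) : δ ^ 2 * ‖α‖ ^ n ≤ 32 * x ^ 2 := by
  have ha := log_pos hα
  have hb := log_pos hβ
  have b0 : β ≠ 0 := norm_pos_iff.1 (by linarith)
  have p0 : 0 < ‖α‖ ^ n := by positivity
  have x0 : 0 ≤ x := (norm_nonneg _).trans h
  have c1 : min (log ‖β‖) 1 * ‖α‖ ^ n ≤ 1 * ‖α‖ ^ n := by gcongr; exact min_le_right _ _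
  have hv := val_le hα hβ h (by linarith)
  obtain ⟨n', m', g1, g2, g3⟩ : ∃ n' m' : ℕ, 1 ≤ n' ∧ n' ≤ n ∧ val α β n' m' < val α β n m := by
    by_contra! hc
    exact hr ⟨h1, hc⟩
  have v0 : 0 ≤ val α β n' m' := norm_nonneg _
  have v1 : 2 * val α β n m < min (log ‖β‖) 1 := lt_of_mul_lt_mul_right (by linarith) p0.le
  have v2 := v1.trans_le (min_le_left _ _)
  have v3 := v1.trans_le (min_le_right _ _)
  obtain ⟨d, rfl⟩ := Nat.exists_eq_add_of_le g2
  have r1 := abs_le.1 (re_val hα hβ (n' + d) m)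
  have r2 := abs_le.1 (re_val hα hβ n' m')
  push_cast at r1
  have d0 : 0 ≤ (d : ℝ) * log ‖α‖ := by positivity
  obtain ⟨e, rfl⟩ : ∃ e, m = m' + e := Nat.exists_eq_add_of_le (by
    have : (m' : ℝ) < m + 1 := lt_of_mul_lt_mul_right (a := log ‖β‖) (by linarith) hb.le
    have : m' < m + 1 := by exact_mod_cast this
    omega)
  push_cast at r1
  have hd : 1 ≤ d := by
    by_contra! hd
    obtain rfl : d = 0 := by omega
    have : (e : ℝ) < 1 := lt_of_mul_lt_mul_right (a := log ‖β‖) (by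
      simp only [Nat.cast_zero] at r1; linarith) hb.le
    obtain rfl : e = 0 := by
      have : e < 1 := by exact_mod_cast this
      omega
    simp at g3
  set L := Complex.log (α ^ (n' + d) / β ^ (m' + e)) with hL
  set L' := Complex.log (α ^ n' / β ^ m') with hL'
  have e1 : Complex.exp L * β ^ (m' + e) = α ^ (n' + d) := exp_log hα hβ _ _
  have e2 : Complex.exp L' * β ^ m' = α ^ n' := exp_log hα hβ _ _
  have e3 : Complex.exp (L - L') * β ^ e = α ^ d := by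
    refine mul_left_cancel₀ (mul_ne_zero (Complex.exp_ne_zero L') (pow_ne_zero m' b0)) ?_
    rw [e2, ← pow_add α, ← e1, ← e2, Complex.exp_sub, pow_add]
    field_simp
  have e4 : ‖L - L'‖ ≤ 2 * val α β (n' + d) (m' + e) := by
    have := norm_sub_le L L'
    change _ ≤ val α β (n' + d) (m' + e) + val α β n' m' at this
    linarith
  have e5 := (hδ d e hd).trans (dist_le' (e4.trans v3.le) e3)
  rw [norm_pow] at e5
  have e6 := (hδ n' m' g1).trans (dist_val hα hβ (by linarith))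
  set v := val α β (n' + d) (m' + e) with hvv
  have e7 : δ ≤ 4 * v * ‖α‖ ^ d :=
    e5.trans (mul_le_mul_of_nonneg_right (by linarith) (by positivity))
  have e8 : δ ≤ 2 * v * ‖α‖ ^ n' := e6.trans (by gcongr)
  have e9 : δ * δ ≤ 4 * v * ‖α‖ ^ d * (2 * v * ‖α‖ ^ n') :=
    mul_le_mul e7 e8 h0.le (h0.le.trans e7)
  have f1 : (v * ‖α‖ ^ (n' + d)) ^ 2 ≤ (2 * x) ^ 2 := by
    gcongr
    exact mul_nonneg (v0.trans g3.le) p0.le
  calc δ ^ 2 * ‖α‖ ^ (n' + d) = δ * δ * ‖α‖ ^ (n' + d) := by ring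
    _ ≤ 4 * v * ‖α‖ ^ d * (2 * v * ‖α‖ ^ n') * ‖α‖ ^ (n' + d) := by gcongr
    _ = 8 * (v * ‖α‖ ^ (n' + d)) ^ 2 := by rw [pow_add]; ring
    _ ≤ 32 * x ^ 2 := by linarith

lemma ex_rec {n : ℕ} (hn : 1 ≤ n) (m : ℕ) :
    ∃ r ∈ Rec α β, r.1 ≤ n ∧ val α β r.1 r.2 ≤ val α β n m := by
  have hf := (strip (a := log ‖α‖) (log_pos hβ) (norm_nonneg _ : 0 ≤ val α β n m) (n + 1)
    (U := {p | 1 ≤ p.1 ∧ p.1 ≤ n ∧ val α β p.1 p.2 ≤ val α β n m})
    fun p hp => ⟨Nat.lt_succ_of_le hp.2.1, (re_val hα hβ _ _).trans hp.2.2⟩).1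
  obtain ⟨r, hr, hm⟩ := exists_min_image _ (fun p : ℕ × ℕ => val α β p.1 p.2) hf
    ⟨(n, m), hn, le_rfl, le_rfl⟩
  refine ⟨r, ⟨hr.1, fun n' m' h1 h2 => ?_⟩, hr.2⟩
  rcases le_total (val α β n' m') (val α β n m) with h | h
  · exact hm (n', m') ⟨h1, h2.trans hr.2.1, h⟩
  · exact hr.2.2.trans h

lemma K_infinite (H : ∀ K : ℕ, ∃ n ≥ K, ∃ m : ℕ, ‖α ^ n - β ^ m‖ < 1) :
    (Tc α β 4 ∩ Rec α β).Infinite := by
  have b0 : β ≠ 0 := norm_pos_iff.1 (by linarith)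
  by_cases h : ∃ n m : ℕ, 1 ≤ n ∧ α ^ n = β ^ m
  · obtain ⟨n, m, h1, h2⟩ := h
    refine infinite_of_injective_forall_mem (f := fun t : ℕ => (n * (t + 1), m * (t + 1)))
      (fun s t hst => ?_) fun t => ?_
    · have := Nat.eq_of_mul_eq_mul_left h1 (congrArg Prod.fst hst)
      omega
    · have e : α ^ (n * (t + 1)) = β ^ (m * (t + 1)) := by rw [pow_mul, pow_mul, h2]
      refine ⟨?_, Nat.mul_pos h1 (Nat.succ_pos t), fun n' m' _ _ => ?_⟩
      · change ‖α ^ (n * (t + 1)) - β ^ (m * (t + 1))‖ ≤ 4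
        rw [e, sub_self, norm_zero]
        norm_num
      · change ‖Complex.log (α ^ (n * (t + 1)) / β ^ (m * (t + 1)))‖ ≤ _
        rw [e, div_self (pow_ne_zero _ b0), Complex.log_one, norm_zero]
        exact norm_nonneg _
  intro hf
  obtain ⟨η, η0, η1, hη⟩ := fin_pos hf.toFinset (fun p => val α β p.1 p.2) fun p hp => by
    have h1 := (hf.mem_toFinset.1 hp).2.1
    refine norm_pos_iff.2 fun e => h ⟨p.1, p.2, h1, ?_⟩
    rw [← exp_log hα hβ p.1 p.2, e, Complex.exp_zero, one_mul]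
  obtain ⟨K, hK⟩ := pow_unbounded_of_one_lt (2 / η) hα
  obtain ⟨n, hn, m, hm⟩ := H (K + 1)
  have p0 : 0 < ‖α‖ ^ n := by positivity
  have p1 : 2 < ‖α‖ ^ n * η :=
    (div_lt_iff₀ η0).1 (hK.trans_le (pow_le_pow_right₀ hα.le (by omega)))
  have p2 : ‖α‖ ^ n * η ≤ ‖α‖ ^ n := mul_le_of_le_one_right p0.le η1
  have hv := val_le hα hβ (x := 1) (n := n) (m := m) hm.le (by linarith)
  obtain ⟨r, r1, r2, r3⟩ := ex_rec hα hβ (n := n) (by omega) m
  have v1 : val α β n m < η := lt_of_mul_lt_mul_right (by linarith) p0.le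
  have v2 : val α β r.1 r.2 * ‖α‖ ^ r.1 ≤ val α β n m * ‖α‖ ^ n :=
    mul_le_mul r3 (pow_le_pow_right₀ hα.le r2) (by positivity) (norm_nonneg _)
  have v3 := dist_val hα hβ (n := r.1) (m := r.2) (by linarith)
  have v4 : r ∈ Tc α β 4 := by
    change ‖α ^ r.1 - β ^ r.2‖ ≤ 4
    linarith
  linarith [hη r (hf.mem_toFinset.2 ⟨v4, r1⟩)]

lemma upper {δ : ℝ} (h0 : 0 < δ) (hδ : ∀ n m : ℕ, 1 ≤ n → δ ≤ ‖α ^ n - β ^ m‖) :
    ∃ M : ℝ, 1 ≤ M ∧ ∀ x, 1 ≤ x → (Tc α β x \ Rec α β).Finite ∧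
      ((Tc α β x \ Rec α β).ncard : ℝ) ≤
        (log (2 * x) / log ‖α‖ + 1) * (log (3 * x) / log ‖β‖ + 1)
          + (log (M * x ^ 2) / log ‖α‖ + 1) * (2 * 1 / log ‖β‖ + 1) := by
  classical
  have ha := log_pos hα
  have hb := log_pos hβ
  have c0 : 0 < min (log ‖β‖) 1 := lt_min hb one_pos
  have c1 : 0 < 4 / min (log ‖β‖) 1 := by positivity
  have c2 : 0 < 32 / δ ^ 2 := by positivity
  refine ⟨1 + 4 / min (log ‖β‖) 1 + 32 / δ ^ 2, by linarith, fun x hx => ?_⟩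
  set M := 1 + 4 / min (log ‖β‖) 1 + 32 / δ ^ 2 with hM
  have x2 : x ≤ x ^ 2 := by nlinarith
  have hy : 1 ≤ M * x ^ 2 := one_le_mul_of_one_le_of_one_le (by linarith) (by linarith)
  set U := {p ∈ Tc α β x \ Rec α β | 2 * x ≤ ‖α‖ ^ p.1} with hU
  obtain ⟨u1, u2⟩ := strip (a := log ‖α‖) hb zero_le_one (⌊log (M * x ^ 2) / log ‖α‖⌋₊ + 1)
    (U := U) (by
      rintro ⟨n, m⟩ ⟨⟨h1, h2⟩, h3⟩
      have p0 : 0 < ‖α‖ ^ n := by positivity
      refine ⟨(pow_le_iff hα hy _).1 ?_, (re_val hα hβ n m).trans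
        (le_of_mul_le_mul_right ((val_le hα hβ h1 h3).trans (by linarith)) p0)⟩
      change ‖α‖ ^ n ≤ _
      rcases lt_or_ge (4 * x) (min (log ‖β‖) 1 * ‖α‖ ^ n) with h | h
      · have hn : 1 ≤ n := by
          by_contra! hn
          obtain rfl : n = 0 := by omega
          simp only [pow_zero] at h3
          linarith
        have e := small_of_not_rec hα hβ h0 hδ h1 hn h2 h
        have e1 : ‖α‖ ^ n ≤ 32 / δ ^ 2 * x ^ 2 := by
          rw [div_mul_eq_mul_div, le_div_iff₀ (by positivity)]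
          linarith
        exact e1.trans (by gcongr; linarith)
      · have e1 : ‖α‖ ^ n ≤ 4 / min (log ‖β‖) 1 * x := by
          rw [div_mul_eq_mul_div, le_div_iff₀ c0]
          linarith
        exact e1.trans (mul_le_mul (by linarith) x2 (by linarith) (by linarith)))
  set N := ⌊log (2 * x) / log ‖α‖⌋₊ + 1 with hN
  set K := ⌊log (3 * x) / log ‖β‖⌋₊ + 1 with hK
  have hsub : Tc α β x \ Rec α β ⊆
      ((Finset.range N ×ˢ Finset.range K : Finset (ℕ × ℕ)) : Set (ℕ × ℕ)) ∪ U := by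
    rintro ⟨n, m⟩ h
    have h' : |‖α‖ ^ n - ‖β‖ ^ m| ≤ x := Tc_sub h.1
    rcases le_total (‖α‖ ^ n) (2 * x) with hn | hn
    · left
      simp only [Finset.coe_product, Finset.coe_range, mem_prod, mem_Iio]
      exact ⟨(pow_le_iff hα (by linarith) _).1 hn,
        (pow_le_iff hβ (by linarith) _).1 (by linarith [(abs_le.1 h').1])⟩
    · exact Or.inr ⟨h, hn⟩
  have hf := (Finset.finite_toSet (Finset.range N ×ˢ Finset.range K)).union u1
  refine ⟨hf.subset hsub, ?_⟩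
  have h1 := (ncard_le_ncard hsub hf).trans (ncard_union_le _ _)
  rw [ncard_coe_finset, Finset.card_product, Finset.card_range, Finset.card_range] at h1
  have h2 : ((Tc α β x \ Rec α β).ncard : ℝ) ≤ N * K + U.ncard := by exact_mod_cast h1
  have l2 : 0 ≤ log (2 * x) := log_nonneg (by linarith)
  have l3 : 0 ≤ log (3 * x) := log_nonneg (by linarith)
  have l4 := log_nonneg hy
  have h3 : (N : ℝ) ≤ log (2 * x) / log ‖α‖ + 1 := by
    rw [hN]; push_cast; linarith [Nat.floor_le (div_nonneg l2 ha.le)]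
  have h4 : (K : ℝ) ≤ log (3 * x) / log ‖β‖ + 1 := by
    rw [hK]; push_cast; linarith [Nat.floor_le (div_nonneg l3 hb.le)]
  have h5 : ((⌊log (M * x ^ 2) / log ‖α‖⌋₊ + 1 : ℕ) : ℝ) ≤ log (M * x ^ 2) / log ‖α‖ + 1 := by
    push_cast; linarith [Nat.floor_le (div_nonneg l4 ha.le)]
  refine h2.trans (add_le_add ?_ (u2.trans ?_)) <;> gcongr

lemma lower {y : ℝ} (hy : 1 ≤ y) (hT : (Tc α β (2 * y) \ Rec α β).Finite) :
    log y ^ 2 / (log ‖α‖ * log ‖β‖) ≤ (Tc α β (2 * y) \ Rec α β).ncard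
      + (log y / log ‖α‖ + 1) * (2 * val α β 1 0 / log ‖β‖ + 1) := by
  classical
  have ha := log_pos hα
  have hb := log_pos hβ
  have hL := log_nonneg hy
  have v0 : 0 ≤ val α β 1 0 := norm_nonneg _
  set N := ⌊log y / log ‖α‖⌋₊ + 1 with hN
  set M := ⌊log y / log ‖β‖⌋₊ + 1 with hM
  obtain ⟨u1, u2⟩ := strip (a := log ‖α‖) hb v0 N (U := {p ∈ Rec α β | p.1 < N})
    fun p hp => ⟨hp.2, (re_val hα hβ _ _).trans (hp.1.2 1 0 le_rfl hp.1.1)⟩
  have hsub : ((Finset.range N ×ˢ Finset.range M : Finset (ℕ × ℕ)) : Set (ℕ × ℕ)) ⊆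
      (Tc α β (2 * y) \ Rec α β) ∪ {p ∈ Rec α β | p.1 < N} := by
    intro p hp
    simp only [Finset.coe_product, Finset.coe_range, mem_prod, mem_Iio] at hp
    by_cases h : p ∈ Rec α β
    · exact Or.inr ⟨h, hp.1⟩
    · refine Or.inl ⟨(norm_sub_le _ _).trans ?_, h⟩
      rw [norm_pow, norm_pow]
      linarith [(pow_le_iff hα hy _).2 hp.1, (pow_le_iff hβ hy _).2 hp.2]
  have h1 := (ncard_le_ncard hsub (hT.union u1)).trans (ncard_union_le _ _)
  rw [ncard_coe_finset, Finset.card_product, Finset.card_range, Finset.card_range] at h1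
  have h2 : (N : ℝ) * M ≤ (Tc α β (2 * y) \ Rec α β).ncard +
      ({p ∈ Rec α β | p.1 < N}.ncard : ℝ) := by exact_mod_cast h1
  have h3 : log y / log ‖α‖ ≤ N := by
    rw [hN]; push_cast; exact (Nat.lt_floor_add_one _).le
  have h4 : log y / log ‖β‖ ≤ M := by
    rw [hM]; push_cast; exact (Nat.lt_floor_add_one _).le
  have h5 : (N : ℝ) ≤ log y / log ‖α‖ + 1 := by
    rw [hN]; push_cast; linarith [Nat.floor_le (div_nonneg hL ha.le)]
  have h6 : log y ^ 2 / (log ‖α‖ * log ‖β‖) ≤ N * M := by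
    calc _ = log y / log ‖α‖ * (log y / log ‖β‖) := by field_simp
      _ ≤ _ := by gcongr
  have h7 : (N : ℝ) * (2 * val α β 1 0 / log ‖β‖ + 1) ≤
      (log y / log ‖α‖ + 1) * (2 * val α β 1 0 / log ‖β‖ + 1) := by gcongr
  linarith

theorem formulaC : ∃ C : ℝ, ∀ᶠ x in atTop, ∃ k : ℕ,
    (Tc α β x).encard = (Tc α β x ∩ Rec α β).encard + k ∧
      |(k : ℝ) - log x ^ 2 / (log ‖α‖ * log ‖β‖)| ≤ C * log x := by
  have ha := log_pos hα
  have hb := log_pos hβ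
  by_cases H : ∀ K : ℕ, ∃ n ≥ K, ∃ m : ℕ, ‖α ^ n - β ^ m‖ < 1
  · refine ⟨1, ?_⟩
    filter_upwards [eventually_ge_atTop 4, tendsto_log_atTop.eventually_ge_atTop 1] with x hx hL
    have h : (Tc α β x ∩ Rec α β).Infinite :=
      (K_infinite hα hβ H).mono fun p hp => ⟨le_trans hp.1 hx, hp.2⟩
    refine ⟨⌊log x ^ 2 / (log ‖α‖ * log ‖β‖)⌋₊, ?_, ?_⟩
    · rw [h.encard_eq, (h.mono inter_subset_left).encard_eq, top_add]
    · have h3 := Nat.floor_le (show 0 ≤ log x ^ 2 / (log ‖α‖ * log ‖β‖) by positivity)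
      have h4 := Nat.lt_floor_add_one (log x ^ 2 / (log ‖α‖ * log ‖β‖))
      exact abs_le.2 ⟨by linarith, by linarith⟩
  push Not at H
  obtain ⟨K, hK⟩ := H
  obtain ⟨δ, h0, -, hδ⟩ := exists_delta hα hβ hK
  obtain ⟨M, hM, hU⟩ := upper hα hβ h0 hδ
  have l2 : 0 < log 2 := log_pos (by norm_num)
  have l3 : 0 < log 3 := log_pos (by norm_num)
  have l4 := log_nonneg hM
  have v0 : 0 ≤ val α β 1 0 := norm_nonneg _
  set A : ℝ := (log 2 / log ‖α‖ + 1) / log ‖β‖ + (log 3 / log ‖β‖ + 1) / log ‖α‖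
    + 2 / log ‖α‖ * (2 * 1 / log ‖β‖ + 1) with hA
  set B : ℝ := (log 2 / log ‖α‖ + 1) * (log 3 / log ‖β‖ + 1)
    + (log M / log ‖α‖ + 1) * (2 * 1 / log ‖β‖ + 1) with hB
  set W : ℝ := 2 * val α β 1 0 / log ‖β‖ + 1 with hW
  set G : ℝ := 2 * log 2 / (log ‖α‖ * log ‖β‖) + (1 / log ‖α‖ + 1) * W with hG
  refine ⟨A + B + G, ?_⟩
  filter_upwards [eventually_ge_atTop 2, tendsto_log_atTop.eventually_ge_atTop 1] with x hx hL
  obtain ⟨hf, hu⟩ := hU x (by linarith)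
  refine ⟨(Tc α β x \ Rec α β).ncard, ?_, ?_⟩
  · rw [hf.cast_ncard_eq, add_comm, encard_sdiff_add_encard_inter]
  have hl := lower hα hβ (y := x / 2) (by linarith) (by rwa [mul_div_cancel₀ x two_ne_zero])
  rw [mul_div_cancel₀ x two_ne_zero, log_div (by linarith) two_ne_zero, ← hW] at hl
  rw [log_mul (by norm_num) (by linarith), log_mul (by norm_num) (by linarith),
    log_mul (by linarith) (by positivity), log_pow] at hu
  have e1 : ((log 2 + log x) / log ‖α‖ + 1) * ((log 3 + log x) / log ‖β‖ + 1)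
      + ((log M + (2 : ℕ) * log x) / log ‖α‖ + 1) * (2 * 1 / log ‖β‖ + 1)
      = log x ^ 2 / (log ‖α‖ * log ‖β‖) + (A * log x + B) := by
    rw [hA, hB]; push_cast; field_simp; ring
  rw [e1] at hu
  have w0 : 0 ≤ W := by positivity
  have e2 : 0 ≤ A * log x := by positivity
  have e3 : 0 ≤ B := by positivity
  have e4 : B ≤ B * log x := le_mul_of_one_le_right e3 hL
  have e5 : 0 ≤ G * log x := by positivity
  have e6 : (log x - log 2) ^ 2 / (log ‖α‖ * log ‖β‖) = log x ^ 2 / (log ‖α‖ * log ‖β‖)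
      - 2 * log 2 / (log ‖α‖ * log ‖β‖) * log x + log 2 ^ 2 / (log ‖α‖ * log ‖β‖) := by ring
  have e7 : 0 ≤ log 2 ^ 2 / (log ‖α‖ * log ‖β‖) := by positivity
  have e8 : ((log x - log 2) / log ‖α‖ + 1) * W ≤ (1 / log ‖α‖ + 1) * log x * W := by
    have : (log x - log 2) / log ‖α‖ ≤ log x / log ‖α‖ := by gcongr; linarith
    have e : (1 / log ‖α‖ + 1) * log x = log x / log ‖α‖ + log x := by ring
    gcongr
    linarith
  have e9 : G * log x = 2 * log 2 / (log ‖α‖ * log ‖β‖) * log x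
      + (1 / log ‖α‖ + 1) * log x * W := by rw [hG]; ring
  have e10 : (A + B + G) * log x = A * log x + B * log x + G * log x := by ring
  have e11 : 0 ≤ B * log x := by positivity
  exact abs_le.2 ⟨by linarith, by linarith⟩

end

end Pool.Agent.Lib.MP_606be1_nt.CX
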